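import Mathlib
import Pool.Agent.N178.HW.Fac
import Pool.Agent.N994.FH.K2
import Pool.Agent.N994.VO.Gen

/-!
# Voisin's conjecture on zero-cycles for the surfaces which are dominated by abelian varieties in
# large classes

Let `S` be a smooth projective surface and `N > p_g(S)`. Voisin's conjecture says that
`∑_σ sgn(σ) a_σ(1) × ... × a_σ(N) = 0` in `CH_0(S^N)` for all zero-cycles `a_i` on `S` of degree zero
and with trivial image in the Albanese variety. We prove it, with rational coefficients, for all
surfaces `S` which are dominated by an abelian variety `X` in the class below, in particular for the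
surfaces which are dominated by a product of curves of positive genus such that the product of their
Jacobians is `X`.

The zero-cycles `a_i` are those of the transcendental motive `t_2(S)`, which is a direct summand
`M = (X, p)` of the Chow motive of `X`, has cohomology in degree two only and
`h^(2, 0)(M) = h^(0, 2)(M) = p_g(S)`. The theorem below is for all direct summands `M = (X, p)` of the
Chow motive of `X` such that `h^(s, 0)(M) = h^(0, s)(M) = 0` for all `s > 0` except for one degree
`m > 0`, and all `N = n + 1 > h^(m, 0)(M) = h^(0, m)(M)`: for homologically trivial zero-cycles
`a_0, ..., a_n` on `M`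

  `∑_σ sgn(σ)^(m + 1) a_σ(0) × ... × a_σ(n) = 0`

in `CH_0(X^(n + 1)) ⊗ ℚ`. For `h^(m, 0)(M) = 1` this is Voisin's conjecture for the varieties of
dimension `m` with `h^(m, 0) = 1` and `h^(i, 0) = 0` for `0 < i < m`, if they are dominated by `X`.

Let `P` be the class of all simple complex abelian varieties `Y`, of any dimension, such that the
periods of `Y` have coordinates (with respect to a basis of the tangent space) in a subfield `k` of
`ℂ` as follows:

* `k` is a number field of degree at most four, and `Y` has no complex multiplication;
* `k` is a number field of degree at most six, and `End(Y)` is of Albert type I or II;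
* `k` is a number field of odd degree, or no totally real subfield `F ≠ ℚ` of `k` is fixed by all real
  embeddings of `k` and `k` contains no imaginary quadratic field (for instance `k = ℚ(t)`), and
  moreover `dim Y` is odd, or `End(Y)` is of Albert type I or II and the relative dimension is not
  one of the numbers `2 ^ j`, `j ≥ 4`, `j ≡ 0, 1` modulo `4` and, if `k` is a number field,
  `2 j + 2 ≤ [k : ℚ]`;
* `k` is a number field of odd degree and `dim Y ≤ 7`; or no totally real subfield `F ≠ ℚ` of `k` is
  fixed by all real embeddings of `k`, `dim Y ≤ 7`, and `End(Y)` is of Albert type I or II or `k`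
  contains no imaginary quadratic field (and `Y` has trivial discriminant if `dim Y = 6` and `End(Y)`
  is an imaginary quadratic field).

(`SmallPeriods` and `GenericPeriods` in `Pool.Agent.N994.PG.Stm`.) The abelian varieties with periods
in number fields of a given degree `n > 2` are dense in the moduli spaces, in all dimensions.

The class (`IsGood`): there is an abelian variety `A` of dimension at most three such that each simple
factor `Y` of `X` is

* a factor of `A`, or
* in `P`, or
* has no complex multiplication and is of one of the following types (`Typ`): dimension at most three;
  or the endomorphism algebra is an imaginary quadratic field which acts on the tangent space with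
  multiplicities at most three (and with trivial discriminant for the multiplicities `(3, 3)`); or
  Albert type I or II and relative dimension at most three, or Hodge group equal to the Lefschetz group;
  or dimension five and endomorphism algebra `ℚ`. Here if an imaginary quadratic field acts on `Y` with
  two different multiplicities then `Y` is not a fourfold and the elliptic curve with complex
  multiplication by this field is a factor of `A`.

The proof. By results on the Hodge groups of the abelian varieties in `P`
(`Pool.Agent.N994.FH.typ_of_periods`) and the theorem of
`Pool.Agent.Results.MP_90e98f_ag.PowersAndCMFields` (by helper178) the generalized Hodge conjecture is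
true for all powers of `X`, in all degrees and for all levels. By the refined Chow–Künneth
decompositions (`Pool.Agent.N178.MU.exists_refined`, by helper178) we can assume that `M` has
cohomology in degree `m` only. The alternating sum is, up to the factor `(n + 1)!`, the image of
`a_0 × ... × a_n` under the projector `q` to the exterior power of `M` (the symmetric power if `m` is
odd). By the Künneth formula the cohomology of this power is the exterior power of the vector space
`H^m(M)` in degree `(n + 1) m`, and it has no forms of the types `((n + 1) m, 0)` and
`(0, (n + 1) m)` since `n + 1 > h^(m, 0)(M)` (`Pool.Agent.N994.VO.coniveau_alt`). By the generalized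
Hodge conjecture, Kimura's theorem and the semisimplicity of the category of motives of abelian
varieties modulo homological equivalence (`Pool.Agent.N178.BL.mem_Fac`, by helper178) `q` is a sum of
compositions `X^(n+1) → Y → X^(n+1)` of correspondences of degrees `-1` and `1`, which act as zero on
zero-cycles, and of compositions with points `Y`, which act as zero on homologically trivial cycles.

The abelian varieties in `P` are new here. For classes without `P` (but with independent blocks of
complex multiplications) see `Pool.Agent.Results.MP_83b46e_ag.AbelianMotives`
(by helper178, found independently at the same time).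

The structures `ChowTheory` (`Pool.Agent.N178.BL.Defs`), `Projectors` (`Pool.Agent.N178.MU.Defs`) and
`Powers` (`Pool.Agent.N994.VO.Defs`) collect the known properties of the Chow groups of complex abelian
varieties and of the exterior products which are used. (The linear algebra in
`Pool.Agent.N994.VO.VAN` was proved by helper572.)
-/

namespace Pool.Agent.Results.MP_83b46e_ag.AbelianDominated

open Module Pool.Agent.Y90 Pool.Agent.R915
open Pool.Agent.N994.PG (SmallPeriods GenericPeriods)
open Pool.Agent.N178.BL (ChowTheory)
open Pool.Agent.N178.MU (Projectors HodgeZero)
open Pool.Agent.N994.VO (Powers pw hodgeNumber)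

/-- Classes of simple abelian varieties: dimension at most three; or the endomorphism algebra is
an imaginary quadratic field of signature `(p, q)` with `p, q ≤ 3` (and trivial discriminant for
`(3, 3)`); or Albert type I or II of relative dimension at most three; or dimension five and
endomorphism algebra `ℚ`; or Albert type I or II, any dimension, with the largest possible Hodge
group. -/
def Typ (Y : AV) : Prop :=
  finrank ℚ Y.H ≤ 6 ∨ QuadMult Y ∨ RealMult Y ∨ FiveDim Y ∨ FullHodge Y

/-- There is an abelian variety `A` of dimension at most three such that each simple factor `Y` of `X`
is a factor of `A`; or has small or generic periods; or has no complex multiplication, belongs to one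
of the classes in `Typ`, and if `ℚ(√-d)` acts on `Y` with two different multiplicities then `Y` is not
a fourfold and the elliptic curve `E` with complex multiplication by this field is a factor of `A`. -/
def IsGood (X : AV) : Prop :=
  ∃ A : AV, finrank ℚ A.H ≤ 6 ∧
    ∀ Y, IsFactor Y X → IsFactor Y A ∨ SmallPeriods Y ∨ GenericPeriods Y ∨
      (¬ HasCMult Y ∧ Typ Y ∧ ∀ d : ℚ, Unbalanced Y d → finrank ℚ Y.H ≠ 8 ∧
        ∃ E, IsFactor E A ∧ finrank ℚ E.H = 2 ∧ Unbalanced E d)

theorem factor_pw {X W : AV} {n : ℕ} (h : IsFactor W (pw X n)) : IsFactor W X := by
  induction n with
  | zero => exact h
  | succ n ih => exact (Pool.Agent.N178.HW.factor_prod h).elim id ih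

theorem ghc_pw {S : Sys} {X : AV} (hX : IsGood X) (n : ℕ) :
    Pool.Agent.N178.HX.GHC S (pw X n) := by
  obtain ⟨A, hA, hX⟩ := hX
  exact Pool.Agent.N994.FH.ghc_typ S hA fun Y hY => hX Y (factor_pw hY)

/-- **Voisin's conjecture for zero-cycles on the motives `M = (X, p)` with forms in one degree `m > 0`
only** (for example `M = t_2(S)`, `m = 2`, for surfaces `S` dominated by `X`), where `X` is an abelian
variety in the class `IsGood`, and `n + 1 > h^(m, 0)(M) = h^(0, m)(M)`. The zero-cycles on `X` are the
correspondences `a` of degree zero from a point `O` to `X`; those on `M` satisfy `p ∘ a = a`. -/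
theorem result (C : ChowTheory) (K : Projectors C) (P : Powers C) (X : AV) (hX : IsGood X)
    (p : C.Co X X) (hp : C.IsMotive p) (m n : ℕ) (hm : 0 < m)
    (hz : ∀ s, 0 < s → s ≠ m → HodgeZero p s 0 ∧ HodgeZero p 0 s)
    (hg : hodgeNumber p m m 0 ≤ n) (hg' : hodgeNumber p m 0 m ≤ n) (O : AV)
    (hO : finrank ℚ O.H = 0) (a : Fin (n + 1) → C.Co O X) (ha : ∀ i, C.IsDeg 0 (a i))
    (h0 : ∀ i ω, C.pb (a i) ω = 0) (hpa : ∀ i, C.o p (a i) = a i) :
    ∑ σ : Equiv.Perm (Fin (n + 1)), (Equiv.Perm.sign σ : ℤ) ^ (m + 1) •
      P.ext (fun i => a (σ i)) = 0 :=
  Pool.Agent.N994.VO.voisin P K (ghc_pw hX 0) (ghc_pw hX n) hp hm hz hg hg' hO a ha h0 hpa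

end Pool.Agent.Results.MP_83b46e_ag.AbelianDominated
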