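import Mathlib
import Pool.Agent.N178.HX.Parts
import Pool.Agent.N178.EX.Main

/-!
# Voisin's conjecture on zero-cycles for surfaces with motives of abelian type

Let `X` be a complex abelian variety (`AV`, up to isogeny) in one of the following two classes.

(a) All simple factors are factors of an abelian variety `A` of dimension at most three (for
instance a power of `A`).

(b) There are finitely many CM types `T k`, divided into independent blocks, such that for each block
all CM types of the CM fields in this block are conjugate, or the total dimension of the block is at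
most three, or the block consists of all CM types of a Galois CM field of degree at most six; and
each simple factor is a factor of one of the abelian varieties with the CM types `T k`, or has no
complex multiplication and belongs to one of the classes in `Typ` below (of any dimension), where an
imaginary quadratic field which acts with two different multiplicities on the tangent space must be
the field of an elliptic curve of the first kind (fourfolds with such an action are excluded).

Let `M = (X, p)` be a direct summand of the Chow motive of `X`, and `n > 1` such that the Hodge numbers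
`h^(j, 0)(M)` are zero for all `j > 1`, `j ≠ n`. We prove: for all `N > h^(n, 0)(M)` and all zero-cycles
`a 1, …, a N` on `M` in the Albanese kernel

`∑ σ, sgn(σ)^(n + 1) a (σ 1) × ⋯ × a (σ N) = 0` in `CH_0(X^N) ⊗ ℚ`.

If `n = 2` and `M` is the motive of a smooth projective surface `S` this is Voisin's conjecture for
`S`, with `p_g(S) = h^(2, 0)(M)`. So the conjecture holds for all surfaces `S` whose Chow motive is such
a direct summand, for instance if `S` is dominated by `X`, or by a product of curves of positive genus
such that the product of their Jacobians is `X`. (The cycles on `S^N` inject into those on `X^N`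
then. A zero-cycle on `S` of degree zero is Albanese-trivial, up to torsion, iff all divisors on
`S × Y`, for abelian varieties `Y`, map it to zero.)

The structures `ChowTheory` (`Pool.Agent.N178.BL.Defs`), `Exterior` and `MurreProjector`
(`Pool.Agent.N178.EX`) collect the known properties of the Chow groups of complex abelian varieties
which are used: the formal properties of correspondences; Kimura's theorem that homologically
trivial endomorphisms of the motive are nilpotent; the semisimplicity of the category of motives of
abelian varieties modulo homological equivalence (Jannsen, Lieberman); the algebraic classes are a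
system `Sys` (Lefschetz, Markman); exterior products of zero-cycles, and the exterior (or symmetric)
power `alt f` of a correspondence `f` of degree zero, with the Künneth formula: if `f^*` is zero on
`H^(j, 0)(X)` for `j ≠ n` and the image `V` of `H^(n, 0)(X)` has dimension less than `N`, then `(alt f)^*`
is zero on all holomorphic forms on `X^N`, since `Λ^N V = 0`. (The file
`Pool.Agent.N178.MU.ExtMain` contains the computation with exterior products of forms.)
`MurreProjector`: Murre's projectors for `H^0` and `H^1`, and his theorem that they are zero on the
Albanese kernel.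

The proof. Let `q` be the projector `p` without its part for `H^0` and `H^1`. The correspondence
`Z = ∑ ± (q × ⋯ × q) ∘ σ` on `X^N` acts as zero on the holomorphic forms. The simple factors of `X^N`
are those of `X`, so the generalized Hodge conjecture holds for `X^N`
(`Pool.Agent.Results.MP_90e98f_ag.PowersAndCMFields`), and `Z` is homologically equivalent to a
correspondence which acts as zero on the zero-cycles of degree zero. By nilpotence `Z` acts
nilpotently on them, but `Z_*` multiplies the alternating sum by `N!`.

-/

namespace Pool.Agent.Results.MP_83b46e_ag.AbelianMotives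

open Module NumberField Pool.Agent.Y90 Pool.Agent.R915
open Pool.Agent.H204R3.CM (IsCMType)
open Pool.Agent.W547.KB (CMPair CMAV single)
open Pool.Agent.W547.LN (SameType)
open Pool.Agent.N830.HC (av)
open Pool.Agent.N178.BL (ChowTheory)
open Pool.Agent.N178.EX (Exterior MurreProjector InAlbaneseKernel hodge altSum)

/-- The classes of simple abelian varieties: dimension at most three; or the endomorphism algebra is
an imaginary quadratic field of signature `(p, q)` with `p, q ≤ 3` (and trivial discriminant for
`(3, 3)`); or Albert type I or II of relative dimension at most three; or dimension five and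
endomorphism algebra `ℚ`; or Albert type I or II, any dimension, with the largest possible Hodge
group. -/
def Typ (Y : AV) : Prop :=
  finrank ℚ Y.H ≤ 6 ∨ QuadMult Y ∨ RealMult Y ∨ FiveDim Y ∨ FullHodge Y

/-- Each simple factor `Y` of `X` is a factor of an abelian variety with one of the CM types `T k`; or
it has no complex multiplication, belongs to one of the classes in `Typ`, and if `ℚ(√-d)` acts on `Y`
with two different multiplicities then `Y` is not a fourfold and the elliptic curve `E` with complex
multiplication by this field is a factor of an abelian variety with one of the CM types `T k`. -/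
def HasFactorsIn {K : Type} (T : K → CMPair) (X : AV) : Prop :=
  ∀ Y, IsFactor Y X → (∃ k, IsFactor Y (av (single (T k)))) ∨ (¬ HasCMult Y ∧ Typ Y ∧
    ∀ d : ℚ, Unbalanced Y d → finrank ℚ Y.H ≠ 8 ∧
      ∃ k E, IsFactor E (av (single (T k))) ∧ finrank ℚ E.H = 2 ∧ Unbalanced E d)

/-- All CM types of the CM fields in the block `B` are conjugate, simultaneously: for each family of
CM types `Ψ k` of the CM fields there is an automorphism of `ℂ` which takes `Ψ k` to the CM type
`T k`, for all `k` in `B`. -/
def AllConjugate {K : Type} (T : K → CMPair) (B : Set K) : Prop :=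
  ∀ Ψ : ∀ k, Set ((T k).E →+* ℂ), (∀ k, IsCMType (Ψ k)) →
    ∃ σ : ℂ ≃+* ℂ, ∀ k ∈ B, ∀ φ, φ ∈ Ψ k ↔ (σ : ℂ →+* ℂ).comp φ ∈ (T k).Φ

/-- The CM fields of the block `B` are subfields of the Galois CM field `L`, and all CM types of `L`
occur. -/
def AllTypes {K : Type} (T : K → CMPair) (B : Set K) (L : Type) [Field L] [NumberField L]
    [IsCMField L] : Prop :=
  IsGalois ℚ L ∧ (∀ k ∈ B, Nonempty ((T k).E →+* L)) ∧
    ∀ (Φ : Set (L →+* ℂ)) (hΦ : IsCMType Φ), ∃ k ∈ B, SameType ⟨L, Φ, hΦ⟩ (T k)

/-- The total dimension of the block is at most three. -/
def DimAtMostThree {K : Type} (T : K → CMPair) (B : Set K) : Prop :=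
  ∃ F : Finset K, (∀ k, k ∈ F ↔ k ∈ B) ∧ ∑ k ∈ F, finrank ℚ (T k).E ≤ 6

/-- The blocks `{k | b k = j}` are independent: automorphisms of `ℂ` can be prescribed separately on
the complex embeddings of the CM fields of the different blocks. (The composita of the Galois
closures of the fields of the different blocks are linearly disjoint over `ℚ`.) -/
def IsIndependent {K J : Type} (T : K → CMPair) (b : K → J) : Prop :=
  ∀ τ : J → (ℂ ≃+* ℂ), ∃ σ : ℂ ≃+* ℂ, ∀ k (φ : (T k).E →+* ℂ),
    (σ : ℂ →+* ℂ).comp φ = (τ (b k) : ℂ →+* ℂ).comp φ

/-- The condition on the block `B`. -/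
def IsGoodBlock {K : Type} (T : K → CMPair) (B : Set K) : Prop :=
  AllConjugate T B ∨ (∃ (L : Type) (_ : Field L) (_ : NumberField L) (_ : IsCMField L),
    AllTypes T B L ∧ finrank ℚ L ≤ 6) ∨ DimAtMostThree T B

/-- The classes (a) and (b) of abelian varieties. -/
def IsGood (X : AV) : Prop :=
  (∃ A : AV, finrank ℚ A.H ≤ 6 ∧ ∀ Y, IsFactor Y X → IsFactor Y A) ∨
    ∃ (K J : Type) (_ : Fintype K) (T : K → CMPair) (b : K → J), IsIndependent T b ∧
      (∀ j, IsGoodBlock T {k | b k = j}) ∧ HasFactorsIn T X

/-- **Voisin's conjecture on the zero-cycles of surfaces**, for direct summands `M = (X, p)` of the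
Chow motives of the abelian varieties in the classes (a), (b) (surfaces: `n = 2`). `altSum n E.cyc a` is
the sum of the exterior products `sgn(σ)^(n + 1) a (σ 1) × ⋯ × a (σ N)`, the cycles on `X` are the
correspondences from a point `O` to `X`, and `hodge C p j` is `h^(j, 0)(M)`. -/
theorem result (C : ChowTheory) (X : AV) (hX : IsGood X) (p : C.Co X X) (hp : C.IsMotive p) (n : ℕ)
    (hn : 1 < n) (hM : ∀ j, 1 < j → j ≠ n → hodge C p j = 0) (N : ℕ)
    (hN : hodge C p n < N) (O : AV) (hO : finrank ℚ O.H = 0)
    (P : MurreProjector C O X) (E : Exterior C O X N n) (a : Fin N → C.Co O X)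
    (ha : ∀ k, C.IsDeg 0 (a k) ∧ InAlbaneseKernel C (a k) ∧ C.o p (a k) = a k) :
    altSum n E.cyc a = 0 := by
  have hQ : IsGood E.Q := by
    rcases hX with ⟨A, hA, hX⟩ | ⟨K, J, _, T, b, hb, hj, hX⟩
    · exact Or.inl ⟨A, hA, fun Y hY => hX Y (Pool.Agent.N178.EX.factor_pow E hY)⟩
    · exact Or.inr ⟨K, J, ‹_›, T, b, hb, hj,
        fun Y hY => hX Y (Pool.Agent.N178.EX.factor_pow E hY)⟩
  have hG : Pool.Agent.N178.HX.GHC C.alg E.Q := by
    rcases hQ with ⟨A, hA, hX⟩ | ⟨K, J, _, T, b, hb, hj, hX⟩
    · exact Pool.Agent.N178.HX.pow3 Pool.Agent.N178.HX.t_MAINT Pool.Agent.N178.HX.t_COV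
        Pool.Agent.N178.HX.t_POW A E.Q hA hX C.alg
    · exact Pool.Agent.N178.HX.uncond' Pool.Agent.N178.HX.t_MAINT Pool.Agent.N178.HX.t_COV T b hb
        hj C.alg E.Q hX
  exact Pool.Agent.N178.EX.exterior_alb hO hp P E hG hn hM hN a (fun k => (ha k).1)
    (fun k => (ha k).2.1) fun k => (ha k).2.2


end Pool.Agent.Results.MP_83b46e_ag.AbelianMotives
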