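import Pool.Agent.N164.VZ.Main

/-!
# Voisin's conjecture for surfaces whose Albanese kernel is generated by products of divisor classes
-/

set_option autoImplicit false

open CategoryTheory AlgebraicGeometry

universe u v

namespace Pool.Agent.Results.MP_83b46e_ag.PicardProducts

open Pool.Agent.H914 Pool.Agent.H914.VarClass Pool.Agent.H914.VarClass.Obj Pool.Agent.W492.BB
  Pool.Agent.W550.Corr Pool.Agent.TH133 Pool.Agent.Y152.AS Pool.Agent.N164.VZ

attribute [-instance] Pool.Agent.TH829.Kim.chCommRing

/-- If the Albanese kernel of `S` is contained in a sum of pieces of total dimension `d`, Voisin's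
assertion holds for `S` and all `n > d`. In particular it holds for all `n > g g'` for the surfaces
dominated by the product of two curves of genera `g`, `g'`, and for all `n > q (q - 1) / 2` for the
varieties dominated by a variety `Y` whose Albanese kernel is spanned by the products of two
elements of `α^* Pic^0(B)`, where `α : Y → B` is a morphism to an abelian variety of dimension
`q`. -/
theorem result {k : Type u} [Field k] {𝒱 : VarClass k} (C : TheoryData.{u, v, 0} 𝒱 ℚ)
    [IsChowProj C] :
    (∀ (S : 𝒱.Obj) (d : ℕ) (M : Submodule ℚ (C.A S)), IsGenerated C S d M →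
      (∀ α : C.A S, InAlbKer C α → α ∈ M) → VoisinAbove C S d) ∧
    (∀ (T T' S : 𝒱.Obj) (g g' : ℕ) (F : T.prod T' ⟶ S), IsCurve C T g → IsCurve C T' g' →
      ProductCycles C T T' → Dominates C F → VoisinAbove C S (g * g')) ∧
    ∀ (Y S B : 𝒱.Obj) [GroupLaw B] (α : Y ⟶ B) (F : Y ⟶ S),
      (∀ z : C.A Y, InAlbKer C z → z ∈ mulSpace C (picard C α) (picard C α)) →
      Dominates C F → VoisinAbove C S (B.dim.choose 2) :=
  ⟨fun _ _ _ h hM => voisin_of_generated h hM,
    fun _ _ _ _ _ F hT hT' hP hF => voisin_of_product hT hT' hP F hF,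
    fun _ _ _ _ α F hY hF => voisin_of_picard α hY F hF⟩

end Pool.Agent.Results.MP_83b46e_ag.PicardProducts
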