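import Pool.Agent.R904.Voi.Main
import Pool.Agent.N164.VZ.Defs

/-!
# Voisin's conjecture for the surfaces dominated by quotients of products of two curves
-/

set_option autoImplicit false

open CategoryTheory AlgebraicGeometry

universe u v

namespace Pool.Agent.Results.MP_83b46e_ag.ProductQuotients

open Pool.Agent.H914 Pool.Agent.H914.VarClass Pool.Agent.H914.VarClass.Obj Pool.Agent.W492.BB
  Pool.Agent.W550.Corr Pool.Agent.TH133 Pool.Agent.Y152.AS Pool.Agent.R904.Voi
  Pool.Agent.N164.VZ

/-- The alternating sum of products is the determinant of the matrix of pull-backs. -/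
lemma aux {k : Type u} [Field k] {𝒱 : VarClass k} (C : TheoryData.{u, v, 0} 𝒱 ℚ)
    [IsChowProj C] {S W : 𝒱.Obj} {n : ℕ} (α : Fin n → C.A S) (s : Fin n → (W ⟶ S))
    (h : (Matrix.of fun i j => C.pull (s i) (α j)).det = 0) : altProduct C α s = 0 := by
  rw [← Matrix.det_transpose, Matrix.det_apply] at h
  rw [altProduct, ← h]
  refine Finset.sum_congr rfl fun σ _ => ?_
  have h1 : (List.ofFn fun i => C.up (s i) (α (σ i))).prod =
      ∏ i, (Matrix.of fun i j => C.pull (s i) (α j)).transpose (σ i) i := by
    rw [List.prod_ofFn]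
    rfl
  rw [h1]
  rfl

attribute [-instance] Pool.Agent.TH829.Kim.chCommRing

/-- Let `X` and `Y` be curves on which `G = (ℤ/2)^r` acts, let `γ φ` and `γ' φ` be the dimensions of
the parts `H^0(X, K_X)_φ` and `H^0(Y, K_Y)_φ` for the characters `φ` of `G` (half of the dimensions
of `h^1(X)_φ` and `h^1(Y)_φ` in the sense of Kimura), and let `S` be a surface dominated by the
quotient `(X × Y) / G` by the diagonal action (for example a resolution of singularities of this
quotient, with `p_g(S) = ∑_φ γ φ * γ' φ`). Then Voisin's assertion holds for `S` and all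
`n > ∑_φ γ φ * γ' φ`. -/
theorem result {k : Type u} [Field k] {𝒱 : VarClass k} (C : TheoryData.{u, v, 0} 𝒱 ℚ)
    [IsChowProj C] {r : ℕ} {X Y S : 𝒱.Obj} {a : Two r → (X ⟶ X)} {a' : Two r → (Y ⟶ Y)}
    {γ γ' : Two r → ℕ} (hX : IsCurveWithGenera C X a γ) (hY : IsCurveWithGenera C Y a' γ')
    (hS : IsDominatedByQuotient C a a' S) : VoisinAbove C S (∑ φ, γ φ * γ' φ) := by
  intro n hn α hα W s
  exact aux C α s (main hX hY hS hn α hα s)

end Pool.Agent.Results.MP_83b46e_ag.ProductQuotients
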